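import Mathlib
import Pool.Agent.Helper46.AdelicPlaneDefs
import Pool.Agent.Helper46.ConicPlaneProof

/-!
# The dynamical Brauer-Manin equality fails on the projective plane over every number field

For a number field `K` we consider the linear automorphism
`f (x₀ : x₁ : x₂) = (x₀ + 2x₁ + x₂ : x₁ + x₂ : x₂)` of `X = P²`, the point `P = (0 : 0 : 1)`, whose
full orbit is `fⁿ(P) = (n² : n : 1)`, `n ∈ ℤ`, and the smooth conic
`Y : 7x₁² + 5x₁x₂ + x₂² = x₀x₂`.  At `(n² : n : 1)` the equation of `Y` takes the value
`(2n + 1)(3n + 1)`, so no point of the (even two-sided) orbit lies on `Y`.  On the other hand there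
are natural numbers `n_k` with `(2n_k + 1) → 0` in `K_v` for all finite `v` not above `2`, with
`3n_k + 1 → 0` in `K_v` for all `v` above `2`, and with `n_k → ∞`; the points `f^{n_k}(P)` converge
adelically to the point with components `(1 : 0 : 0)` (archimedean places), `(1/4 : -1/2 : 1)`
(finite places not above `2`) and `(1/9 : -1/3 : 1)` (places above `2`), an adelic point of `Y`.
-/

open scoped LinearAlgebra.Projectivization
open NumberField IsDedekindDomain Filter Topology
open Pool.Agent.Helper46.AdelicPlane

namespace Pool.Agent.Results.MP_80da57_nt.ConicPlane

/-- **The dynamical Brauer-Manin equality fails for the projective plane over every number field.**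
For every number field `K` there are a linear automorphism `g` of `X = P²` over `K`, given by an
integral matrix of determinant `1`, a smooth and geometrically irreducible conic `Y = {q = 0}`, and
a point `P` of `P²(K)` such that: the point `P` is not preperiodic; `Y` is not preperiodic; no point
of the two-sided orbit of `P` lies on `Y`; and yet the adelic closure of the forward orbit of `P`
contains an adelic point of `Y`.  In particular
`C(Y ∩ O_f(P)) ≠ Y(𝔸_K) ∩ C(O_f(P))`. -/
theorem result (K : Type*) [Field K] [NumberField K] :
    ∃ (g : GL (Fin 3) K) (q : MvPolynomial (Fin 3) K) (P : P2 K),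
      -- `g` comes from an element of `SL₃(ℤ)`
      (∃ M : Matrix (Fin 3) (Fin 3) ℤ, M.det = 1 ∧
        (g : Matrix (Fin 3) (Fin 3) K) = M.map (Int.castRingHom K)) ∧
      -- `q` is a quadratic form, irreducible over the algebraic closure, defining a smooth conic
      q.IsHomogeneous 2 ∧
      Irreducible (MvPolynomial.map (algebraMap K (AlgebraicClosure K)) q) ∧
      (∀ w : Fin 3 → AlgebraicClosure K,
        (∀ i, MvPolynomial.aeval w (MvPolynomial.pderiv i q) = 0) → w = 0) ∧
      -- `P` is not preperiodic
      Function.Injective (fun n : ℤ => iter g n P) ∧
      -- `Y` is not preperiodic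
      Function.Injective (fun n : ℤ => iter g n '' points q K) ∧
      -- the two-sided orbit of `P` does not meet `Y`
      (∀ n : ℤ, iter g n P ∉ points q K) ∧
      -- the adelic closure of the forward orbit contains an adelic point of `Y`
      (adelicPoints q ∩ adelicClosure (forwardOrbit g P)).Nonempty ∧
      -- the equality of the conjecture fails
      adelicClosure (points q K ∩ forwardOrbit g P) ≠
        adelicPoints q ∩ adelicClosure (forwardOrbit g P) :=
  Pool.Agent.Helper46.ConicPlaneProof.main K

end Pool.Agent.Results.MP_80da57_nt.ConicPlane
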