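import Mathlib
import Pool.Agent.Helper46.AdelicPlaneDefs
import Pool.Agent.Helper46.CubicPlaneProof

/-!
# A Zariski dense orbit on the projective plane violating the Brauer-Manin equality

For a number field `K` we consider the diagonal automorphism `f (x₀ : x₁ : x₂) = (2x₀ : 3x₁ : x₂)`
of `X = P²` and the point `P = (1 : 1 : 1)`, with `fⁿ(P) = (2ⁿ : 3ⁿ : 1)`, `n ∈ ℤ`, and the smooth
cubic curve `Y : x₀³ - x₀²x₂ + x₁²x₂ - x₁x₂² = 0`, an elliptic curve.  The forward orbit of `P` is
Zariski dense, the only point of the two-sided orbit on `Y` is `P` itself, and the points
`f^{k!}(P)` converge adelically to the point with components `(0 : 1 : 0)` (archimedean places),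
`(0 : 1 : 1)` (places above `2`), `(1 : 0 : 1)` (places above `3`) and `(1 : 1 : 1)` (all others),
which is an adelic point of `Y` different from the diagonal image of `P`.
-/

open scoped LinearAlgebra.Projectivization
open NumberField IsDedekindDomain Filter Topology
open Pool.Agent.Helper46.AdelicPlane

namespace Pool.Agent.Results.MP_80da57_nt.CubicPlane

/-- **The dynamical Brauer-Manin equality fails for a Zariski dense orbit on the projective plane,
over every number field.**  For every number field `K` there are a diagonal automorphism `g` of
`X = P²` over `K`, a smooth and geometrically irreducible cubic curve `Y = {q = 0}` and a point `P`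
of `Y(K)` such that: the forward orbit of `P` is Zariski dense; `P` is the only point of its
two-sided orbit on `Y`, so that `C(Y ∩ O_f(P))` is the single point `P`; but `C(O_f(P))` contains
a further adelic point of `Y`. -/
theorem result (K : Type*) [Field K] [NumberField K] :
    ∃ (g : GL (Fin 3) K) (q : MvPolynomial (Fin 3) K) (P : P2 K),
      -- `g` is diagonal
      (g : Matrix (Fin 3) (Fin 3) K).IsDiag ∧
      -- `q` is a cubic form, irreducible over the algebraic closure, defining a smooth cubic
      q.IsHomogeneous 3 ∧
      Irreducible (MvPolynomial.map (algebraMap K (AlgebraicClosure K)) q) ∧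
      (∀ w : Fin 3 → AlgebraicClosure K,
        (∀ i, MvPolynomial.aeval w (MvPolynomial.pderiv i q) = 0) → w = 0) ∧
      -- the forward orbit of `P` is Zariski dense
      (∀ (d : ℕ) (F : MvPolynomial (Fin 3) K), F.IsHomogeneous d →
        forwardOrbit g P ⊆ points F K → F = 0) ∧
      -- the two-sided orbit of `P` meets `Y` in `P` only
      (∀ n : ℤ, iter g n P ∈ points q K ↔ n = 0) ∧
      -- the adelic closure of the set of orbit points on `Y` consists of `P`
      adelicClosure (points q K ∩ forwardOrbit g P) = {diag K P} ∧
      -- the adelic closure of the forward orbit contains another adelic point of `Y`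
      (∃ x ∈ adelicPoints q ∩ adelicClosure (forwardOrbit g P), x ≠ diag K P) ∧
      -- the equality of the conjecture fails
      adelicClosure (points q K ∩ forwardOrbit g P) ≠
        adelicPoints q ∩ adelicClosure (forwardOrbit g P) :=
  Pool.Agent.Helper46.CubicPlaneProof.main K

end Pool.Agent.Results.MP_80da57_nt.CubicPlane
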