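import Mathlib
import Pool.Agent.Helper72.Henon.Main

/-!
# The dynamical Brauer-Manin equality fails for Hénon maps

For a number field `K` and an integer `d ≥ 2` we consider the surface `X = P² ∖ {(1 : 0 : 0)}` and
its endomorphism `f (x : y : z) = (y z^(d-1) : y^d - x z^(d-1) : z^d)`, which on the affine plane
`z ≠ 0` is the Hénon automorphism `(a, b) ↦ (b, b^d - a)` of degree `d` (dynamical degree `d`), and
which contracts the line at infinity to the attracting fixed point `(0 : 1 : 0)`.  Let `Y` be the
line `x = 0` and let `P = (0 : 2 : 1)`.  The orbit of `P` is Zariski dense and meets `Y` only in `P`.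
Modulo every integer the map is a permutation of a finite set, so `f^{k!}(P)` converges to `P` at
all finite places, while it converges to `(0 : 1 : 0)`, a point of `Y`, at all archimedean places.
-/

open NumberField
open Pool.Agent.Helper72.Henon

namespace Pool.Agent.Results.MP_80da57_nt.HenonPlane

universe u

/-- **The dynamical Brauer-Manin equality fails for Hénon maps of every degree `d ≥ 2` over every
number field.**  For every number field `K` and every `d ≥ 2` there are an endomorphism `f` over `K`
of the surface `X = P² ∖ {(1 : 0 : 0)}`, which restricts to the automorphism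
`(a, b) ↦ (b, b^d - a)` of the affine plane and whose `n`-th iterate has degree `dⁿ`, the line
`Y = {x₀ = 0}` in `X`, which is not preperiodic, and a point `P` of `Y` with Zariski dense orbit,
such that `f^n(P)` lies on `Y` only for `n = 0` and `C(Y ∩ O_f(P)) = {P}`, although
`Y(𝔸_K) ∩ C(O_f(P))` contains a point other than `P`. -/
theorem result (K : Type u) [Field K] [NumberField K] (d : ℕ) (hd : 2 ≤ d) :
    ∃ (f : Endo K) (q : MvPolynomial (Fin 3) K) (P : Surf K),
      -- `f` is given by forms of degree `d`
      f.degree = d ∧
      -- on the affine plane, over every extension field, `f` is the bijection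
      -- `(a, b) ↦ (b, b^d - a)`
      (∀ (E : Type u) [Field E] [Algebra K E],
        (∀ a b : E, f.map E (pt a b) = pt b (b ^ d - a)) ∧
        Set.BijOn (f.map E) (affine E) (affine E)) ∧
      -- the `n`-th iterate on the affine plane is given by polynomials of degree `dⁿ`
      (∀ n : ℕ, ∃ A B : MvPolynomial (Fin 2) K,
        A.totalDegree ≤ d ^ n ∧ B.totalDegree = d ^ n ∧
        ∀ (E : Type u) [Field E] [Algebra K E] (a b : E), (f.map E)^[n] (pt a b) =
          pt (MvPolynomial.aeval ![a, b] A) (MvPolynomial.aeval ![a, b] B)) ∧
      -- `Y` is the line `x₀ = 0`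
      q = MvPolynomial.X 0 ∧
      -- the forward orbit of `P` is Zariski dense
      (∀ (e : ℕ) (r : MvPolynomial (Fin 3) K), r.IsHomogeneous e →
        forwardOrbit f P ⊆ rationalPoints r → r = 0) ∧
      -- `f^n(P)` lies on `Y` only for `n = 0`
      (∀ n : ℕ, (f.map K)^[n] P ∈ rationalPoints q ↔ n = 0) ∧
      -- `Y` is not preperiodic
      Function.Injective (fun n : ℕ => (f.map K)^[n] '' rationalPoints q) ∧
      -- the adelic closure of `Y ∩ O_f(P)` is `{P}`
      adelicClosure (rationalPoints q ∩ forwardOrbit f P) = {diag K P} ∧
      -- the adelic closure of the forward orbit contains another adelic point of `Y`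
      (∃ Q ∈ adelicPoints q ∩ adelicClosure (forwardOrbit f P), Q ≠ diag K P) ∧
      -- the equality of the conjecture fails
      adelicClosure (rationalPoints q ∩ forwardOrbit f P) ≠
        adelicPoints q ∩ adelicClosure (forwardOrbit f P) :=
  main K d hd

end Pool.Agent.Results.MP_80da57_nt.HenonPlane
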